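import Pool.Agent.AT3.Stmts2
import Pool.Agent.Helper66_K9.Asm

/-!
# Squad AT3, row GSM: the sum over a set stable under the powers prime to `ℓ`
-/

open scoped BigOperators

noncomputable section

namespace Pool.Agent.PP.T3.H76

open Pool.Agent.Helper51_AWC Pool.Agent.Helper79_WRA Pool.Agent.PP Pool.Agent.PP.KF
open Pool.Agent.PP.K9 Pool.Agent.PP.K9.H97 Pool.Agent.PP.H75 Pool.Agent.PP.T3

attribute [local instance] Ideal.Quotient.field

/-- the degree is determined by the block -/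
theorem dg_unique (M : Ideal (integralClosure ℤ ℂ)) [M.IsMaximal] {H : Type} [Group H]
    {C C' : Subgroup H} (h : C = C') {b : H → FF M} {d d' : ℕ}
    (hne : (IrrE M (fun t : C => b t)).Nonempty)
    (h1 : Dg M (fun t : C => b t) d) (h2 : Dg M (fun t : C' => b t) d') : d = d' := by
  subst h
  obtain ⟨χ, hχ⟩ := hne
  have h := (h1.2 χ hχ).symm.trans (h2.2 χ hχ)
  exact_mod_cast h

/-- averaging over the powers prime to `ℓ` -/
theorem avg {H : Type} [Group H] (ℓ : ℕ) [Fact ℓ.Prime] (a : ℕ) (ha : 0 < a) (S : Finset H)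
    (hq : ∀ x ∈ S, x ^ ℓ ^ a = 1) (hS : ∀ x ∈ S, ∀ j : ℕ, ¬ ℓ ∣ j → x ^ j ∈ S) (f : H → ℝ)
    (h1 : ∀ x ∈ S, ((ℓ ^ (a - 1) * (ℓ - 1) : ℕ) : ℝ) ≤
      ∑ j ∈ (Finset.range (ℓ ^ a)).filter (fun j => ¬ ℓ ∣ j), f (x ^ j))
    (h2 : ∀ x ∈ S, ∑ j ∈ (Finset.range (ℓ ^ a)).filter (fun j => ¬ ℓ ∣ j), f (x ^ j) =
      ((ℓ ^ (a - 1) * (ℓ - 1) : ℕ) : ℝ) → f x = 1) :
    (S.card : ℝ) ≤ ∑ x ∈ S, f x ∧ (∑ x ∈ S, f x = S.card → ∀ x ∈ S, f x = 1) := by
  have hp : ℓ.Prime := Fact.out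
  have hq1 : 1 < ℓ ^ a := Nat.one_lt_pow ha.ne' hp.one_lt
  obtain ⟨J, hJ⟩ : ∃ J, J = (Finset.range (ℓ ^ a)).filter (fun j => ¬ ℓ ∣ j) := ⟨_, rfl⟩
  have hcard : J.card = ℓ ^ (a - 1) * (ℓ - 1) := by
    rw [← Nat.totient_prime_pow hp ha, Nat.totient_eq_card_coprime, hJ]
    congr 1
    apply Finset.filter_congr
    intro j _
    rw [Nat.coprime_pow_left_iff ha, hp.coprime_iff_not_dvd]
  rw [← hJ] at h1 h2
  rw [← hcard] at h1 h2
  have hpos : (0 : ℝ) < J.card := by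
    rw [hcard]
    have h3 : 0 < ℓ ^ (a - 1) * (ℓ - 1) :=
      Nat.mul_pos (pow_pos hp.pos _) (Nat.sub_pos_of_lt hp.one_lt)
    exact_mod_cast h3
  have hbij : ∀ j ∈ J, ∑ x ∈ S, f (x ^ j) = ∑ x ∈ S, f x := by
    intro j hj
    rw [hJ, Finset.mem_filter] at hj
    have hco : Nat.Coprime j (ℓ ^ a) := by
      rw [Nat.coprime_comm, Nat.coprime_pow_left_iff ha, hp.coprime_iff_not_dvd]
      exact hj.2
    obtain ⟨m, -, hm⟩ := Nat.exists_mul_mod_eq_one_of_coprime hco hq1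
    have hm' : ¬ ℓ ∣ m := by
      intro hd
      have h4 : ℓ ∣ j * m % ℓ ^ a := (Nat.dvd_mod_iff (dvd_pow_self ℓ ha.ne')).2
        (Dvd.dvd.mul_left hd j)
      rw [hm] at h4
      exact hp.one_lt.ne' (Nat.dvd_one.1 h4)
    have hpow : ∀ x ∈ S, x ^ (j * m) = x := by
      intro x hx
      rw [← Nat.div_add_mod (j * m) (ℓ ^ a), hm, pow_add, pow_mul, hq x hx, one_pow, one_mul,
        pow_one]
    refine Finset.sum_nbij' (fun x => x ^ j) (fun x => x ^ m) ?_ ?_ ?_ ?_ ?_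
    · intro x hx
      exact hS x hx j hj.2
    · intro x hx
      exact hS x hx m hm'
    · intro x hx
      show (x ^ j) ^ m = x
      rw [← pow_mul]
      exact hpow x hx
    · intro x hx
      show (x ^ m) ^ j = x
      rw [← pow_mul, mul_comm]
      exact hpow x hx
    · intro x _
      rfl
  have hdouble : ∑ x ∈ S, ∑ j ∈ J, f (x ^ j) = J.card * ∑ x ∈ S, f x := by
    rw [Finset.sum_comm, Finset.sum_congr rfl hbij, Finset.sum_const, nsmul_eq_mul]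
  have hconst : ∑ _x ∈ S, (J.card : ℝ) = J.card * S.card := by
    rw [Finset.sum_const, nsmul_eq_mul, mul_comm]
  refine ⟨?_, ?_⟩
  · have h5 : ∑ _x ∈ S, (J.card : ℝ) ≤ ∑ x ∈ S, ∑ j ∈ J, f (x ^ j) := Finset.sum_le_sum h1
    rw [hdouble, hconst] at h5
    exact le_of_mul_le_mul_left h5 hpos
  · intro he x hx
    have h6 : ∑ _x ∈ S, (J.card : ℝ) = ∑ x ∈ S, ∑ j ∈ J, f (x ^ j) := by
      rw [hdouble, hconst, he]
    exact h2 x hx (((Finset.sum_eq_sum_iff_of_le h1).1 h6) x hx).symm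

/-- GSM -/
theorem gsm (hLOC : LocStmt) (hLSB : LsbStmt) (hLPW : LpwStmt) (hINR : InrStmt)
    (hGLP : GlpStmt) : GsmStmt := by
  intro ℓ hℓ M hMx hM H _ _ b V γ hL S hS1 hS2 c d hc κ hκ
  by_cases hSe : S = ∅
  · subst hSe
    simp
  obtain ⟨x₀, hx₀⟩ := Finset.nonempty_iff_ne_empty.2 hSe
  obtain ⟨a, ha⟩ := (IsPGroup.iff_card).1 hL.tp.pg
  have hq : ∀ x ∈ V, x ^ ℓ ^ a = 1 := by
    intro x hx
    have h1 : (⟨x, hx⟩ : V) ^ Nat.card V = 1 := pow_card_eq_one'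
    rw [ha] at h1
    have h2 := congrArg Subtype.val h1
    simpa using h2
  have hapos : 0 < a := by
    rcases Nat.eq_zero_or_pos a with h | h
    · exfalso
      apply (hS1 x₀ hx₀).2
      have h3 := hq x₀ (hS1 x₀ hx₀).1
      rw [h, pow_zero, pow_one] at h3
      exact h3
    · exact h
  have hgf : GoodF ℓ (FF M) := H50.fld ℓ hℓ.out M hM
  have hζ := Complex.isPrimitiveRoot_exp (ℓ ^ a) (pow_ne_zero a hℓ.out.ne_zero)
  obtain ⟨ζ, hζe⟩ : ∃ ζ, ζ = Complex.exp (2 * Real.pi * Complex.I / (ℓ ^ a : ℕ)) := ⟨_, rfl⟩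
  rw [← hζe] at hζ
  have hnz : ∀ x ∈ S, gv M (Cu x) x (c x) κ ≠ 0 := by
    intro x hx
    have hLx := (hc x hx).1
    exact nz_ ℓ M hM H b hL.blk V hL.tp hL.ab x (hS1 x hx).1 (fun t : Cu x => c x t)
      hLx.blk.blk hLx.und (hLSB ℓ M hM H b V γ hL x (hS1 x hx).1 (c x) hLx).1.tp.gd x
      (Subgroup.mem_zpowers x) κ hκ
  have hne : ∀ x ∈ S, (IrrE M (fun t : Cu x => c x t)).Nonempty := by
    intro x hx
    by_contra hem
    rw [Set.not_nonempty_iff_eq_empty] at hem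
    apply hnz x hx
    unfold gv gbv eh
    rw [hem]
    simp
  have key : ∀ x ∈ S, ∀ j, ¬ ℓ ∣ j →
      gv M (Cu (x ^ j)) (x ^ j) (c (x ^ j)) κ / d (x ^ j) =
        gv M (Cu x) (x ^ j) (c x) κ / d x := by
    intro x hx j hj
    have hxj := hS2 x hx j hj
    obtain ⟨hC, hLj⟩ := hLPW ℓ (FF M) hgf H b V γ hL x (hS1 x hx).1 (c x) (hc x hx).1 j hj
    have hcc : c (x ^ j) = c x :=
      (hLOC ℓ (FF M) hgf H b V γ hL (x ^ j) (hS1 _ hxj).1).2 _ _ (hc _ hxj).1 hLj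
    have hdd : d (x ^ j) = d x := by
      have h1 := (hc _ hxj).2
      have h2 := (hc x hx).2
      have h3 := hne _ hxj
      rw [hcc] at h1 h3
      exact dg_unique M hC h3 h1 h2
    rw [hcc, hdd, hC]
  have hm : ∀ x ∈ S, ∃ m : ℕ → ℤ, (∀ j : ℕ, gv M (Cu x) (x ^ j) (c x) κ / d x =
      ∑ i ∈ Finset.range (ℓ ^ a), (m i : ℂ) * ζ ^ (i * j)) ∧
      ∑ i ∈ Finset.range (ℓ ^ a), (m i : ℂ) * ζ ^ i ≠ 0 := by
    intro x hx
    obtain ⟨m, hm⟩ := hINR M H x (ℓ ^ a) (pow_pos hℓ.out.pos a) (hq x (hS1 x hx).1) (c x)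
      (hc x hx).1.blk.ix (d x) (hc x hx).2 ζ hζ κ hκ.1
    have hd : (d x : ℂ) ≠ 0 := by
      have := (hc x hx).2.1
      exact_mod_cast this.ne'
    refine ⟨m, fun j => ?_, fun h0 => ?_⟩
    · rw [hm j, mul_div_cancel_left₀ _ hd]
    · apply hnz x hx
      have h1 := hm 1
      simp only [pow_one, mul_one] at h1
      rw [h1, h0, mul_zero]
  apply avg ℓ a hapos S (fun x hx => hq x (hS1 x hx).1) hS2
    (fun x => Complex.normSq (gv M (Cu x) x (c x) κ / d x))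
  · intro x hx
    obtain ⟨m, hm1, hm2⟩ := hm x hx
    have hs : ∑ j ∈ (Finset.range (ℓ ^ a)).filter (fun j => ¬ ℓ ∣ j),
        Complex.normSq (gv M (Cu (x ^ j)) (x ^ j) (c (x ^ j)) κ / d (x ^ j)) =
        ∑ j ∈ (Finset.range (ℓ ^ a)).filter (fun j => ¬ ℓ ∣ j),
      Complex.normSq (∑ i ∈ Finset.range (ℓ ^ a), (m i : ℂ) * ζ ^ (i * j)) := by
      apply Finset.sum_congr rfl
      intro j hj
      rw [key x hx j (Finset.mem_filter.1 hj).2, hm1 j]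
    show _ ≤ ∑ j ∈ (Finset.range (ℓ ^ a)).filter (fun j => ¬ ℓ ∣ j),
        Complex.normSq (gv M (Cu (x ^ j)) (x ^ j) (c (x ^ j)) κ / d (x ^ j))
    rw [hs]
    exact (hGLP ℓ a hapos ζ hζ m hm2).1
  · intro x hx he
    obtain ⟨m, hm1, hm2⟩ := hm x hx
    have hs : ∑ j ∈ (Finset.range (ℓ ^ a)).filter (fun j => ¬ ℓ ∣ j),
        Complex.normSq (gv M (Cu (x ^ j)) (x ^ j) (c (x ^ j)) κ / d (x ^ j)) =
        ∑ j ∈ (Finset.range (ℓ ^ a)).filter (fun j => ¬ ℓ ∣ j),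
      Complex.normSq (∑ i ∈ Finset.range (ℓ ^ a), (m i : ℂ) * ζ ^ (i * j)) := by
      apply Finset.sum_congr rfl
      intro j hj
      rw [key x hx j (Finset.mem_filter.1 hj).2, hm1 j]
    have he' : ∑ j ∈ (Finset.range (ℓ ^ a)).filter (fun j => ¬ ℓ ∣ j),
        Complex.normSq (gv M (Cu (x ^ j)) (x ^ j) (c (x ^ j)) κ / d (x ^ j)) =
        ((ℓ ^ (a - 1) * (ℓ - 1) : ℕ) : ℝ) := he
    rw [hs] at he'
    have h1 := (hGLP ℓ a hapos ζ hζ m hm2).2 he' 1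
      (fun h => hℓ.out.one_lt.ne' (Nat.dvd_one.1 h))
    have h2 := hm1 1
    rw [pow_one] at h2
    show Complex.normSq (gv M (Cu x) x (c x) κ / d x) = 1
    rw [h2]
    exact h1

end Pool.Agent.PP.T3.H76
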